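import Pool.Agent.Helper45.PQ.StA

/-!
# Project PQ (MP_a1f43d_co), module DEG
-/

set_option autoImplicit false

open Module Classical
open scoped LinearAlgebra.Projectivization

namespace Pool.Agent.Helper15.PQ

open Pool.Agent.Helper45.PQ
open Pool.Agent.Helper53.PB (tt line left_mem_line right_mem_line line_eq)

universe u v

theorem hDEG : StDEG.{u, v} := by
  intro F _ _ V _ _ _ Q T H m h j c P hP A hA hAP
  obtain ⟨B, hB⟩ : ∃ B : Finset (ℙ F V), B = H.filter (fun R => ∃ X ∈ A, R.rep ∈ line P X) :=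
    ⟨_, rfl⟩
  obtain ⟨L, hL⟩ : ∃ L : Finset (Submodule F V), L = A.image (fun X => line P X) := ⟨_, rfl⟩
  have hne : ∀ R ∈ H, R ≠ P := by
    rintro R hR rfl
    exact c.dis R hR hP
  -- the covering
  have h1 : A ⊆ L.biUnion (fun l => (T.filter (fun X => X.rep ∈ l)).erase P) := by
    intro X hX
    rw [Finset.mem_biUnion]
    refine ⟨line P X, ?_, ?_⟩
    · rw [hL]
      exact Finset.mem_image.2 ⟨X, hX, rfl⟩
    · rw [Finset.mem_erase, Finset.mem_filter]
      exact ⟨(hAP X hX).1, hA hX, right_mem_line _ _⟩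
  -- the number of points on every line
  have h2 : ∀ l ∈ L, ((T.filter (fun X => X.rep ∈ l)).erase P).card = mass H m l := by
    intro l hl
    rw [hL] at hl
    obtain ⟨X, hX, rfl⟩ := Finset.mem_image.1 hl
    have hln := c.ln P hP X (hAP X hX).1 (c.sT X (hA hX)) (hAP X hX).2
    unfold tt at hln
    rw [Finset.card_erase_of_mem (Finset.mem_filter.2 ⟨hP, left_mem_line _ _⟩), hln]
    omega
  -- the masses
  have h3 : ∑ l ∈ L, mass H m l ≤ ∑ R ∈ B, m R := by
    have hmaps : ∀ R ∈ B, line P R ∈ L := by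
      intro R hR
      rw [hB, Finset.mem_filter] at hR
      obtain ⟨hRH, X, hX, hRl⟩ := hR
      rw [line_eq (Ne.symm (hAP X hX).1) hRl (hne R hRH), hL]
      exact Finset.mem_image.2 ⟨X, hX, rfl⟩
    rw [← Finset.sum_fiberwise_of_maps_to hmaps]
    refine Finset.sum_le_sum fun l hl => ?_
    unfold mass
    refine Finset.sum_le_sum_of_subset ?_
    intro R hR
    rw [Finset.mem_filter] at hR
    obtain ⟨hRH, hRl⟩ := hR
    rw [hL] at hl
    obtain ⟨X, hX, rfl⟩ := Finset.mem_image.1 hl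
    rw [Finset.mem_filter, hB, Finset.mem_filter]
    exact ⟨⟨hRH, X, hX, hRl⟩, line_eq (Ne.symm (hAP X hX).1) hRl (hne R hRH)⟩
  rw [hB] at h3
  calc A.card
      ≤ (L.biUnion (fun l => (T.filter (fun X => X.rep ∈ l)).erase P)).card :=
        Finset.card_le_card h1
    _ ≤ ∑ l ∈ L, ((T.filter (fun X => X.rep ∈ l)).erase P).card := Finset.card_biUnion_le
    _ = ∑ l ∈ L, mass H m l := Finset.sum_congr rfl h2
    _ ≤ _ := h3

end Pool.Agent.Helper15.PQ
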